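import Pool.Agent.H129.LineProof

set_option autoImplicit false

namespace Pool.Agent.Results.MP_6e49ee_lc.LineVehicleNPHard

open Pool.Agent.NPC Pool.Agent.NPC.Line129

/-- **Single-vehicle scheduling on a path with release times and positive handling times is
NP-hard** (numbers written in binary). (1) The decision version is in `NP`. (2) Every language in
`NP` has a polynomial-time many-one reduction to it whose values are instances in which all handling
times are positive, all travel times are positive and symmetric, and the vehicle starts at an end of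
the path. (3) There is a polynomial-time algorithm which decides the problem for all instances with
positive handling times if and only if `P = NP`. -/
theorem result : InNPP LineVehicle ∧
    (∀ L : Set (List Bool), InNP L → ∃ f : List Bool → Inst, PolyTime (fun x => bits (f x)) ∧
      (∀ x, IsInst (f x) ∧ PosHandling (f x) ∧ Simple (f x)) ∧ ∀ x, x ∈ L ↔ LineVehicle (f x)) ∧
    ((∃ A : List Bool → List Bool, PolyTime A ∧
      ∀ I : Inst, IsInst I → PosHandling I → (A (bits I) = [true] ↔ LineVehicle I)) ↔
      ∀ L : Set (List Bool), InNP L → InP L) := by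
  have hard : ∀ L : Set (List Bool), InNP L → ∃ f : List Bool → Inst,
      PolyTime (fun x => bits (f x)) ∧
      (∀ x, IsInst (f x) ∧ PosHandling (f x) ∧ Simple (f x)) ∧
      ∀ x, x ∈ L ↔ LineVehicle (f x) := by
    intro L hL
    obtain ⟨f, hf, hpr, hfL⟩ := hardPr_lineVehicle L hL
    exact ⟨f, PC.toPolyTime hf, hpr, hfL⟩
  refine ⟨inNP, hard, ?_, ?_⟩
  · rintro ⟨A, hA, h⟩ L hL
    obtain ⟨f, hf, hpr, hfL⟩ := hard L hL
    exact ⟨fun x => A (bits (f x)), H642R2.TMSim.polyTime_comp hA hf, fun x =>
      (hfL x).trans (h (f x) (hpr x).1 (hpr x).2.1).symm⟩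
  · intro h
    obtain ⟨A, hA, hA'⟩ := h _ inNP
    exact ⟨A, hA, fun I _ _ => by rw [← hA', bits_mem_lang]⟩

end Pool.Agent.Results.MP_6e49ee_lc.LineVehicleNPHard
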